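import Mathlib

set_option autoImplicit false

/-!
# Bodies and tilings of the plane by translates
-/

namespace Pool.Agent.PSQ

/-- The translate `C + t`. -/
def tr (C : Set (ℝ × ℝ)) (t : ℝ × ℝ) : Set (ℝ × ℝ) := (fun x => x + t) '' C

/-- A body: a compact set that is the closure of its interior. -/
def IsBody (C : Set (ℝ × ℝ)) : Prop := IsCompact C ∧ closure (interior C) = C

/-- The family of the `C + t`, `t ∈ T`, is a tiling: the interiors of distinct members are
disjoint and the union is the plane. -/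
def Tiling (C T : Set (ℝ × ℝ)) : Prop :=
  (∀ s ∈ T, ∀ t ∈ T, s ≠ t → Disjoint (interior (tr C s)) (interior (tr C t))) ∧
    (⋃ t ∈ T, tr C t) = Set.univ

/-- There are two linearly independent vectors `u, v` with `T + u = T` and `T + v = T`. -/
def Periodic (T : Set (ℝ × ℝ)) : Prop :=
  ∃ u v : ℝ × ℝ, LinearIndependent ℝ ![u, v] ∧ tr T u = T ∧ tr T v = T

/-- The closed parallelogram with the vertices `0, a, b, a + b`. -/
def par (a b : ℝ × ℝ) : Set (ℝ × ℝ) :=
  {x | ∃ s ∈ Set.Icc (0 : ℝ) 1, ∃ t ∈ Set.Icc (0 : ℝ) 1, x = s • a + t • b}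

end Pool.Agent.PSQ
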