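import Mathlib

set_option autoImplicit false

/-!
# The Frobenius argument: if a set of prime cardinality tiles then the complement is periodic
-/

namespace Pool.Agent.PSQ

open Finset

section

variable {A : Type*} [AddCommGroup A] (p : ℕ) [Fact p.Prime]

/-- translation of functions -/
def trF (a : A) : Module.End (ZMod p) (A → ZMod p) where
  toFun f := fun x => f (x - a)
  map_add' _ _ := rfl
  map_smul' _ _ := rfl

lemma trF_add (a b : A) : trF p (a + b) = trF p a * trF p b := by
  refine LinearMap.ext fun f => funext fun x => ?_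
  show f (x - (a + b)) = f (x - a - b)
  rw [sub_sub]

lemma trF_zero : trF p (0 : A) = 1 := by
  refine LinearMap.ext fun f => funext fun x => ?_
  show f (x - 0) = f x
  rw [sub_zero]

/-- translations as a monoid homomorphism -/
def trH : Multiplicative A →* Module.End (ZMod p) (A → ZMod p) where
  toFun a := trF p a.toAdd
  map_one' := trF_zero p
  map_mul' a b := trF_add p a.toAdd b.toAdd

/-- the action of the group ring -/
noncomputable def act : AddMonoidAlgebra (ZMod p) A →ₐ[ZMod p]
    Module.End (ZMod p) (A → ZMod p) :=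
  AddMonoidAlgebra.lift (ZMod p) _ A (trH p)

lemma act_single (a : A) : act p (AddMonoidAlgebra.single a (1 : ZMod p)) = trF p a := by
  unfold act
  rw [AddMonoidAlgebra.lift_single, one_smul]
  rfl

lemma act_sum (G : Finset A) (φ : A → A) (f : A → ZMod p) (x : A) :
    act p (∑ g ∈ G, AddMonoidAlgebra.single (φ g) (1 : ZMod p)) f x = ∑ g ∈ G, f (x - φ g) := by
  rw [map_sum, LinearMap.sum_apply, Finset.sum_apply]
  refine Finset.sum_congr rfl fun g _ => ?_
  rw [act_single]
  rfl

/-- If the translates `E + g`, `g ∈ G`, form a partition and `|G| = p` is prime then `E` is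
invariant under `p (g - g')`. -/
theorem frob (G : Finset A) (hG : G.card = p) (E : Set A)
    (h : ∀ x, ∃! g, g ∈ G ∧ x - g ∈ E) :
    ∀ g ∈ G, ∀ g' ∈ G, ∀ x, x ∈ E → x + p • (g - g') ∈ E := by
  classical
  obtain ⟨f, hf⟩ : ∃ f : A → ZMod p, f = fun x => if x ∈ E then 1 else 0 := ⟨_, rfl⟩
  obtain ⟨φ, hφ⟩ : ∃ φ : AddMonoidAlgebra (ZMod p) A,
      φ = ∑ g ∈ G, AddMonoidAlgebra.single g (1 : ZMod p) := ⟨_, rfl⟩
  have h1 : act p φ f = fun _ => 1 := by
    funext x
    rw [hφ, act_sum p G (fun g => g) f x]
    obtain ⟨g, ⟨hg, hgE⟩, hu⟩ := h x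
    rw [Finset.sum_eq_single g]
    · rw [hf]
      simp only [hgE, if_true]
    · intro g' hg' hne
      rw [hf]
      have : x - g' ∉ E := fun hc => hne (hu g' ⟨hg', hc⟩)
      simp only [this, if_false]
    · intro hc
      exact absurd hg hc
  have h2 : act p φ (fun _ => 1) = 0 := by
    funext x
    rw [hφ, act_sum p G (fun g => g) _ x]
    simp [hG]
  have : CharP (AddMonoidAlgebra (ZMod p) A) p :=
    charP_of_injective_algebraMap (algebraMap (ZMod p) (AddMonoidAlgebra (ZMod p) A)).injective p
  have h3 : φ ^ p = ∑ g ∈ G, AddMonoidAlgebra.single (p • g) (1 : ZMod p) := by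
    rw [hφ, sum_pow_char]
    refine Finset.sum_congr rfl fun g _ => ?_
    rw [AddMonoidAlgebra.single_pow, one_pow]
  have h4 : ∀ x, ∑ g ∈ G, f (x - p • g) = 0 := by
    intro x
    rw [← act_sum p G (fun g => p • g) f x, ← h3]
    have h5 : φ ^ p = φ ^ (p - 2) * (φ * φ) := by
      rw [← sq, ← pow_add, Nat.sub_add_cancel (Fact.out : p.Prime).two_le]
    rw [h5, map_mul, map_mul, Module.End.mul_apply, Module.End.mul_apply, h1, h2, map_zero]
    rfl
  -- the number of `g` with `x - p g ∈ E`
  have h6 : ∀ x, (G.filter fun g => x - p • g ∈ E) = ∅ ∨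
      (G.filter fun g => x - p • g ∈ E) = G := by
    intro x
    have h7 : (((G.filter fun g => x - p • g ∈ E).card : ℕ) : ZMod p) = 0 := by
      rw [← h4 x, hf]
      simp only [Finset.sum_ite, Finset.sum_const_zero, add_zero, Finset.sum_const, nsmul_eq_mul,
        mul_one]
    rw [ZMod.natCast_eq_zero_iff] at h7
    have h8 : (G.filter fun g => x - p • g ∈ E).card ≤ p := by
      rw [← hG]
      exact Finset.card_filter_le _ _
    rcases Nat.eq_zero_or_pos (G.filter fun g => x - p • g ∈ E).card with h9 | h9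
    · exact Or.inl (Finset.card_eq_zero.1 h9)
    · right
      refine Finset.eq_of_subset_of_card_le (Finset.filter_subset _ _) ?_
      rw [hG]
      exact Nat.le_of_dvd h9 h7
  intro g hg g' hg' x hx
  have h10 : x - p • g' + p • g' ∈ E := by rwa [sub_add_cancel]
  have h11 : (x + p • g) - p • g ∈ E := by rwa [add_sub_cancel_right]
  rcases h6 (x + p • g) with h | h
  · have : g ∈ (G.filter fun g₁ => (x + p • g) - p • g₁ ∈ E) :=
      Finset.mem_filter.2 ⟨hg, h11⟩
    rw [h] at this
    exact absurd this (Finset.notMem_empty _)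
  · have : g' ∈ (G.filter fun g₁ => (x + p • g) - p • g₁ ∈ E) := by rw [h]; exact hg'
    have h12 := (Finset.mem_filter.1 this).2
    rwa [add_sub_assoc, ← nsmul_sub] at h12

end

end Pool.Agent.PSQ
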