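import Pool.Agent.PSQ.Word
import Pool.Agent.PSQ.Frob

set_option autoImplicit false

/-!
# Tilings in columns
-/

namespace Pool.Agent.PSQ

open Finset

/-- the sets `E + g`, `g ∈ G`, form a partition -/
def Cov (E : Set (ℤ × ℝ)) (G : Finset (ℤ × ℝ)) : Prop := ∀ z : ℤ × ℝ, ∃! g, g ∈ G ∧ z - g ∈ E

/-- the union of the unit intervals with lower end points in `τ j` in the column `j` -/
def unit (τ : ℤ → Set ℝ) : Set (ℤ × ℝ) := {z | ∃ s ∈ τ z.1, s ≤ z.2 ∧ z.2 < s + 1}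

/-- all elements of `τ j` are congruent modulo `1` -/
def Sep (τ : ℤ → Set ℝ) : Prop := ∀ j, ∃ c : ℝ, ∀ s ∈ τ j, ∃ n : ℤ, s = c + n

/-- two periods of a system of columns -/
def Per2 (τ : ℤ → Set ℝ) : Prop := ∃ (k N : ℕ) (w : ℝ), 0 < k ∧ 0 < N ∧
  (∀ (j : ℤ) (s : ℝ), s ∈ τ j ↔ s + w ∈ τ (j + k)) ∧ (∀ (j : ℤ) (s : ℝ), s ∈ τ j ↔ s + N ∈ τ j)

lemma iter_per {A : Type*} [AddCommGroup A] (E : Set A) (u : A) (h : ∀ z, z ∈ E ↔ z + u ∈ E)
    (q : ℤ) : ∀ z, z ∈ E ↔ z + q • u ∈ E := by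
  induction q using Int.induction_on with
  | zero => intro z; simp
  | succ n ih =>
    intro z
    rw [ih z, h (z + (n : ℤ) • u), add_assoc, add_zsmul, one_zsmul]
  | pred n ih =>
    intro z
    rw [ih z, h (z + (-(n : ℤ) - 1) • u), add_assoc, sub_zsmul, one_zsmul, add_assoc (_ • u),
      neg_add_cancel, add_zero]

section glue

variable (k : ℕ) (hk : 0 < k) (w : ℝ) (c : ℤ → ℝ)

/-- the residue of `i` modulo `k` -/
def rr (i : ℤ) : Fin k := ⟨(i % k).toNat, by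
  have h1 : (0 : ℤ) < k := by exact_mod_cast hk
  have h2 := Int.emod_nonneg i h1.ne'
  have h3 := Int.emod_lt_of_pos i h1
  omega⟩

lemma rr_val (i : ℤ) : (((rr k hk i : ℕ)) : ℤ) = i % k := by
  have h1 : (0 : ℤ) < k := by exact_mod_cast hk
  show (((i % k).toNat : ℕ) : ℤ) = i % k
  exact Int.toNat_of_nonneg (Int.emod_nonneg i h1.ne')

lemma rr_add (i : ℤ) : rr k hk (i + k) = rr k hk i := by
  apply Fin.ext
  show ((i + k) % (k : ℤ)).toNat = (i % k).toNat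
  rw [Int.add_emod_right]

/-- the phase of the column `i` -/
noncomputable def cs (i : ℤ) : ℝ := c (i % k) + ((i / k : ℤ) : ℝ) * w

lemma cs_add (hk : 0 < k) (i : ℤ) : cs k w c (i + k) = cs k w c i + w := by
  have h1 : (k : ℤ) ≠ 0 := by exact_mod_cast hk.ne'
  unfold cs
  rw [Int.add_emod_right, Int.add_ediv_of_dvd_right (dvd_refl _), Int.ediv_self h1]
  push_cast
  ring

/-- the set coded by a word -/
def EE (a : ℤ → Fin k → Bool) : Set (ℤ × ℝ) :=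
  {z | a ⌊z.2 - cs k w c z.1⌋ (rr k hk z.1) = true}

lemma quot_bound (hk : 0 < k) (i d : ℤ) : |(((i - d) / k : ℤ) : ℝ) - ((i / k : ℤ) : ℝ)| ≤
    1 + |(d : ℝ)| := by
  have h1 : (0 : ℤ) < k := by exact_mod_cast hk
  have e1 := Int.emod_add_mul_ediv i k
  have e2 := Int.emod_add_mul_ediv (i - d) k
  have a1 := Int.emod_nonneg i h1.ne'
  have a2 := Int.emod_lt_of_pos i h1
  have a3 := Int.emod_nonneg (i - d) h1.ne'
  have a4 := Int.emod_lt_of_pos (i - d) h1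
  have key : |(i - d) / (k : ℤ) - i / k| ≤ 1 + |d| := by
    by_contra hcon
    push Not at hcon
    have h2 : 2 + |d| ≤ |(i - d) / (k : ℤ) - i / k| := by omega
    have h3 : (k : ℤ) * ((i - d) / (k : ℤ) - i / k) = i % k - (i - d) % k - d := by
      linear_combination e2 - e1
    have h4 : |(k : ℤ) * ((i - d) / (k : ℤ) - i / k)| < k + |d| := by
      rw [h3, abs_lt]
      have h5 := neg_abs_le d
      have h6 := le_abs_self d
      constructor <;> linarith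
    rw [abs_mul, abs_of_pos h1] at h4
    have h7 : (k : ℤ) * (2 + |d|) ≤ k * |(i - d) / (k : ℤ) - i / k| :=
      mul_le_mul_of_nonneg_left h2 h1.le
    have h8 : |d| ≤ (k : ℤ) * |d| := le_mul_of_one_le_left (abs_nonneg d) (by omega)
    nlinarith
  have h9 : ((|(i - d) / (k : ℤ) - i / k| : ℤ) : ℝ) ≤ ((1 + |d| : ℤ) : ℝ) := by exact_mod_cast key
  push_cast at h9
  exact h9

lemma phase_bound (hk : 0 < k) : ∃ C : ℝ, ∀ i : ℤ, |c (i % k)| ≤ C := by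
  refine ⟨∑ r ∈ Finset.range k, |c r|, fun i => ?_⟩
  have h := rr_val k hk i
  rw [← h]
  exact Finset.single_le_sum (f := fun r : ℕ => |c r|) (fun r _ => abs_nonneg _)
    (Finset.mem_range.2 (rr k hk i).2)

lemma local_bound (hk : 0 < k) (g : ℤ × ℝ) : ∃ M : ℕ, ∀ (i : ℤ) (y : ℝ),
    |⌊(y - g.2) - cs k w c (i - g.1)⌋ - ⌊y - cs k w c i⌋| ≤ (M : ℤ) := by
  obtain ⟨C, hC⟩ := phase_bound k c hk
  obtain ⟨M, hM⟩ := exists_nat_ge (|g.2| + (2 * C + (1 + |(g.1 : ℝ)|) * |w|) + 1)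
  refine ⟨M, fun i y => ?_⟩
  have h1 : |(y - g.2) - cs k w c (i - g.1) - (y - cs k w c i)| ≤
      |g.2| + (2 * C + (1 + |(g.1 : ℝ)|) * |w|) := by
    have e1 : (y - g.2) - cs k w c (i - g.1) - (y - cs k w c i) =
        -g.2 + (-c ((i - g.1) % k) + (c (i % k) +
          -(((((i - g.1) / k : ℤ) : ℝ) - ((i / k : ℤ) : ℝ)) * w))) := by
      unfold cs
      ring
    rw [e1]
    have h2 := hC i
    have h3 := hC (i - g.1)
    have h4 : |(((((i - g.1) / k : ℤ) : ℝ) - ((i / k : ℤ) : ℝ)) * w)| ≤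
        (1 + |(g.1 : ℝ)|) * |w| := by
      rw [abs_mul]
      exact mul_le_mul_of_nonneg_right (quot_bound k hk i g.1) (abs_nonneg w)
    have t1 := abs_add_le (-g.2) (-c ((i - g.1) % k) + (c (i % k) +
          -(((((i - g.1) / k : ℤ) : ℝ) - ((i / k : ℤ) : ℝ)) * w)))
    have t2 := abs_add_le (-c ((i - g.1) % k)) (c (i % k) +
          -(((((i - g.1) / k : ℤ) : ℝ) - ((i / k : ℤ) : ℝ)) * w))
    have t3 := abs_add_le (c (i % k))
          (-(((((i - g.1) / k : ℤ) : ℝ) - ((i / k : ℤ) : ℝ)) * w))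
    rw [abs_neg] at t1 t2 t3
    linarith
  have f1 := Int.floor_le ((y - g.2) - cs k w c (i - g.1))
  have f2 := Int.lt_floor_add_one ((y - g.2) - cs k w c (i - g.1))
  have f3 := Int.floor_le (y - cs k w c i)
  have f4 := Int.lt_floor_add_one (y - cs k w c i)
  have h5 := abs_le.1 h1
  have h6 : |((⌊(y - g.2) - cs k w c (i - g.1)⌋ : ℤ) : ℝ) - ((⌊y - cs k w c i⌋ : ℤ) : ℝ)| ≤ M := by
    rw [abs_le]
    constructor <;> linarith
  exact_mod_cast h6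

lemma transfer (G : Finset (ℤ × ℝ)) (M : ℕ)
    (hM : ∀ g ∈ G, ∀ (i : ℤ) (y : ℝ),
      |⌊(y - g.2) - cs k w c (i - g.1)⌋ - ⌊y - cs k w c i⌋| ≤ (M : ℤ))
    (a a' : ℤ → Fin k → Bool)
    (haa : ∀ n₀ : ℤ, ∃ m₀ : ℤ, ∀ d : ℤ, |d| ≤ M → a' (n₀ + d) = a (m₀ + d))
    (h : Cov (EE k hk w c a) G) : Cov (EE k hk w c a') G := by
  intro z
  obtain ⟨m₀, hm⟩ := haa ⌊z.2 - cs k w c z.1⌋
  obtain ⟨D, hD⟩ : ∃ D : ℤ, D = m₀ - ⌊z.2 - cs k w c z.1⌋ := ⟨_, rfl⟩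
  have key : ∀ g ∈ G, (z - g ∈ EE k hk w c a' ↔ (z.1, z.2 + D) - g ∈ EE k hk w c a) := by
    intro g hg
    show a' ⌊(z.2 - g.2) - cs k w c (z.1 - g.1)⌋ (rr k hk (z.1 - g.1)) = true ↔
      a ⌊(z.2 + D - g.2) - cs k w c (z.1 - g.1)⌋ (rr k hk (z.1 - g.1)) = true
    have h1 := hM g hg z.1 z.2
    have h2 := hm _ h1
    have e1 : z.2 + D - g.2 - cs k w c (z.1 - g.1) =
        (z.2 - g.2 - cs k w c (z.1 - g.1)) + (D : ℝ) := by ring
    rw [e1, Int.floor_add_intCast]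
    have e2 : ⌊z.2 - cs k w c z.1⌋ + (⌊(z.2 - g.2) - cs k w c (z.1 - g.1)⌋ -
        ⌊z.2 - cs k w c z.1⌋) = ⌊(z.2 - g.2) - cs k w c (z.1 - g.1)⌋ := by ring
    have e3 : m₀ + (⌊(z.2 - g.2) - cs k w c (z.1 - g.1)⌋ -
        ⌊z.2 - cs k w c z.1⌋) = ⌊(z.2 - g.2) - cs k w c (z.1 - g.1)⌋ + D := by
      rw [hD]; ring
    rw [e2, e3] at h2
    rw [h2]
  obtain ⟨g, ⟨hg, hgE⟩, hu⟩ := h (z.1, z.2 + D)
  refine ⟨g, ⟨hg, (key g hg).2 hgE⟩, ?_⟩
  rintro g' ⟨hg', hgE'⟩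
  exact hu g' ⟨hg', (key g' hg').1 hgE'⟩

include hk in
theorem glue (τ : ℤ → Set ℝ) (hc : ∀ (j : ℤ), ∀ s ∈ τ j, ∃ n : ℤ, s = c j + n)
    (G : Finset (ℤ × ℝ)) (hper : ∀ z : ℤ × ℝ, z ∈ unit τ ↔ z + ((k : ℤ), w) ∈ unit τ)
    (hcov : Cov (unit τ) G) :
    ∃ τ' : ℤ → Set ℝ, Sep τ' ∧ Cov (unit τ') G ∧ Per2 τ' := by
  classical
  obtain ⟨a, ha⟩ : ∃ a : ℤ → Fin k → Bool, ∀ n r, (a n r = true ↔ c ((r : ℕ) : ℤ) + n ∈
      τ ((r : ℕ) : ℤ)) :=
    ⟨fun n r => decide (c ((r : ℕ) : ℤ) + n ∈ τ ((r : ℕ) : ℤ)), fun n r => decide_eq_true_iff⟩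
  -- the set is coded by the word
  have hE : unit τ = EE k hk w c a := by
    ext z
    have h1 := iter_per (unit τ) ((k : ℤ), w) hper (-(z.1 / k)) z
    rw [h1]
    have e1 : z + (-(z.1 / (k : ℤ))) • (((k : ℤ), w) : ℤ × ℝ) =
        (z.1 % k, z.2 - ((z.1 / k : ℤ) : ℝ) * w) := by
      refine Prod.ext ?_ ?_
      · show z.1 + (-(z.1 / (k : ℤ))) • (k : ℤ) = z.1 % k
        rw [smul_eq_mul, Int.emod_def]
        ring
      · show z.2 + (-(z.1 / (k : ℤ))) • w = z.2 - ((z.1 / k : ℤ) : ℝ) * w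
        rw [zsmul_eq_mul]
        push_cast
        ring
    rw [e1]
    show (∃ s ∈ τ (z.1 % k), s ≤ z.2 - ((z.1 / k : ℤ) : ℝ) * w ∧
      z.2 - ((z.1 / k : ℤ) : ℝ) * w < s + 1) ↔
      a ⌊z.2 - cs k w c z.1⌋ (rr k hk z.1) = true
    rw [ha, rr_val]
    have e2 : z.2 - cs k w c z.1 = z.2 - ((z.1 / k : ℤ) : ℝ) * w - c (z.1 % k) := by
      unfold cs; ring
    rw [e2]
    constructor
    · rintro ⟨s, hs, h2, h3⟩
      obtain ⟨n, hn⟩ := hc _ s hs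
      have h4 : ⌊z.2 - ((z.1 / k : ℤ) : ℝ) * w - c (z.1 % k)⌋ = n := by
        rw [Int.floor_eq_iff]
        constructor <;> linarith
      rw [h4, ← hn]
      exact hs
    · intro h2
      refine ⟨_, h2, ?_, ?_⟩
      · have := Int.floor_le (z.2 - ((z.1 / k : ℤ) : ℝ) * w - c (z.1 % k))
        linarith
      · have := Int.lt_floor_add_one (z.2 - ((z.1 / k : ℤ) : ℝ) * w - c (z.1 % k))
        linarith
  -- the bound for the windows
  have hMg : ∀ g : ℤ × ℝ, ∃ M : ℕ, ∀ (i : ℤ) (y : ℝ),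
      |⌊(y - g.2) - cs k w c (i - g.1)⌋ - ⌊y - cs k w c i⌋| ≤ (M : ℤ) :=
    local_bound k w c hk
  choose Mg hMg using hMg
  have hM : ∀ g ∈ G, ∀ (i : ℤ) (y : ℝ),
      |⌊(y - g.2) - cs k w c (i - g.1)⌋ - ⌊y - cs k w c i⌋| ≤ ((G.sup Mg : ℕ) : ℤ) := by
    intro g hg i y
    refine (hMg g i y).trans ?_
    exact_mod_cast Finset.le_sup (f := Mg) hg
  obtain ⟨a', N, hN, hpa, hwin⟩ := word a (G.sup Mg)
  rw [hE] at hcov
  have hcov' := transfer k hk w c G (G.sup Mg) hM a a' hwin hcov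
  refine ⟨fun i => {s | ∃ n : ℤ, s = cs k w c i + n ∧ a' n (rr k hk i) = true}, ?_, ?_, ?_⟩
  · intro j
    refine ⟨cs k w c j, ?_⟩
    rintro s ⟨n, hn, -⟩
    exact ⟨n, hn⟩
  · have hU : unit (fun i => {s | ∃ n : ℤ, s = cs k w c i + n ∧ a' n (rr k hk i) = true}) =
        EE k hk w c a' := by
      ext z
      constructor
      · rintro ⟨s, ⟨n, hn, han⟩, h2, h3⟩
        have h4 : ⌊z.2 - cs k w c z.1⌋ = n := by
          rw [Int.floor_eq_iff]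
          constructor <;> linarith
        show a' ⌊z.2 - cs k w c z.1⌋ (rr k hk z.1) = true
        rw [h4]
        exact han
      · intro h2
        refine ⟨_, ⟨_, rfl, h2⟩, ?_, ?_⟩
        · have := Int.floor_le (z.2 - cs k w c z.1)
          linarith
        · have := Int.lt_floor_add_one (z.2 - cs k w c z.1)
          linarith
    rw [hU]
    exact hcov'
  · refine ⟨k, N, w, hk, hN, fun j s => ?_, fun j s => ?_⟩
    · constructor
      · rintro ⟨n, hn, han⟩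
        refine ⟨n, ?_, ?_⟩
        · rw [cs_add k w c hk, hn]; ring
        · rw [rr_add]; exact han
      · rintro ⟨n, hn, han⟩
        refine ⟨n, ?_, ?_⟩
        · rw [cs_add k w c hk] at hn; linarith
        · rw [rr_add] at han; exact han
    · constructor
      · rintro ⟨n, hn, han⟩
        refine ⟨n + N, ?_, ?_⟩
        · rw [hn]; push_cast; ring
        · rw [hpa]; exact han
      · rintro ⟨n, hn, han⟩
        refine ⟨n - N, ?_, ?_⟩
        · push_cast; linarith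
        · rw [← hpa, sub_add_cancel]; exact han

end glue

/-- **Columns.** -/
theorem col (τ : ℤ → Set ℝ) (hsep : Sep τ) (G : Finset (ℤ × ℝ)) (hG : G.card.Prime)
    (hcov : Cov (unit τ) G) : ∃ τ' : ℤ → Set ℝ, Sep τ' ∧ Cov (unit τ') G ∧ Per2 τ' := by
  have hp : Fact G.card.Prime := ⟨hG⟩
  choose c hc using hsep
  by_cases hall : ∃ g ∈ G, ∃ g' ∈ G, g'.1 < g.1
  · obtain ⟨g, hg, g', hg', hlt⟩ := hall
    obtain ⟨K, hK⟩ := Int.eq_ofNat_of_zero_le (show 0 ≤ g.1 - g'.1 by omega)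
    have hf := frob G.card G rfl (unit τ) hcov
    have hu : G.card • (g - g') = (((G.card * K : ℕ) : ℤ), (G.card : ℝ) * (g.2 - g'.2)) := by
      refine Prod.ext ?_ ?_
      · show G.card • (g.1 - g'.1) = ((G.card * K : ℕ) : ℤ)
        rw [hK, nsmul_eq_mul]
        push_cast
        rfl
      · show G.card • (g.2 - g'.2) = (G.card : ℝ) * (g.2 - g'.2)
        rw [nsmul_eq_mul]
    refine glue (G.card * K) (Nat.mul_pos hG.pos (by omega)) ((G.card : ℝ) * (g.2 - g'.2)) c τ hc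
      G (fun z => ?_) hcov
    rw [← hu]
    constructor
    · exact hf g hg g' hg' z
    · intro hz
      have h1 := hf g' hg' g hg _ hz
      have h2 : z + G.card • (g - g') + G.card • (g' - g) = z := by
        rw [add_assoc, ← nsmul_add]
        simp
      rwa [h2] at h1
  · push Not at hall
    obtain ⟨g₀, hg₀⟩ := Finset.card_pos.1 hG.pos
    have hsame : ∀ g ∈ G, g.1 = g₀.1 := fun g hg =>
      le_antisymm (hall g hg g₀ hg₀) (hall g₀ hg₀ g hg)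
    refine glue 1 one_pos 0 (fun _ => c 0) (fun _ => τ 0) (fun j s hs => hc 0 s hs) G
      (fun z => ?_) (fun z => ?_)
    · show (∃ s ∈ τ 0, s ≤ z.2 ∧ z.2 < s + 1) ↔ (∃ s ∈ τ 0, s ≤ z.2 + 0 ∧ z.2 + 0 < s + 1)
      rw [add_zero]
    · obtain ⟨g, ⟨hg, hgE⟩, hu⟩ := hcov (g₀.1, z.2)
      have key : ∀ g ∈ G, ((g₀.1, z.2) - g ∈ unit τ ↔ z - g ∈ unit fun _ => τ 0) := by
        intro g hg
        show (∃ s ∈ τ (g₀.1 - g.1), s ≤ z.2 - g.2 ∧ z.2 - g.2 < s + 1) ↔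
          (∃ s ∈ τ 0, s ≤ z.2 - g.2 ∧ z.2 - g.2 < s + 1)
        rw [hsame g hg, sub_self]
      refine ⟨g, ⟨hg, (key g hg).1 hgE⟩, ?_⟩
      rintro g' ⟨hg', hgE'⟩
      exact hu g' ⟨hg', (key g' hg').2 hgE'⟩

end Pool.Agent.PSQ
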