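import Pool.Agent.PSQ.Line
import Pool.Agent.PSQ.Col

set_option autoImplicit false

/-!
# Tilings by clusters of half-open unit squares
-/

namespace Pool.Agent.PSQ

open Finset

/-- every point of the plane is in exactly one of the half-open squares with lower left corner
`t + v`, `t ∈ T`, `v ∈ F` -/
def HT (T : Set (ℝ × ℝ)) (F : Finset (ℝ × ℝ)) : Prop := ∀ z : ℝ × ℝ,
  ∃! q : (ℝ × ℝ) × (ℝ × ℝ), q.1 ∈ T ∧ q.2 ∈ F ∧
    (q.1 + q.2).1 ≤ z.1 ∧ z.1 < (q.1 + q.2).1 + 1 ∧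
    (q.1 + q.2).2 ≤ z.2 ∧ z.2 < (q.1 + q.2).2 + 1

/-- two independent periods -/
def PerSet (T : Set (ℝ × ℝ)) : Prop := ∃ u v : ℝ × ℝ, LinearIndependent ℝ ![u, v] ∧
  (∀ t, t ∈ T ↔ t + u ∈ T) ∧ ∀ t, t ∈ T ↔ t + v ∈ T

/-- the set of the corners -/
def cor (T : Set (ℝ × ℝ)) (F : Finset (ℝ × ℝ)) : Set (ℝ × ℝ) := {s | ∃ t ∈ T, ∃ v ∈ F, s = t + v}

lemma sqPart_cor {T : Set (ℝ × ℝ)} {F : Finset (ℝ × ℝ)} (h : HT T F) : SqPart (cor T F) := by
  intro z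
  obtain ⟨q, ⟨h1, h2, h3⟩, hu⟩ := h z
  refine ⟨q.1 + q.2, ⟨⟨q.1, h1, q.2, h2, rfl⟩, h3⟩, ?_⟩
  rintro s ⟨⟨t, ht, v, hv, rfl⟩, h4⟩
  have h5 := hu (t, v) ⟨ht, hv, h4⟩
  rw [← h5]

lemma ht_ne {T : Set (ℝ × ℝ)} {F : Finset (ℝ × ℝ)} (h : HT T F) :
    (∃ t, t ∈ T) ∧ ∃ v, v ∈ F := by
  obtain ⟨q, ⟨h1, h2, -⟩, -⟩ := h 0
  exact ⟨⟨q.1, h1⟩, q.2, h2⟩

theorem half_col {T : Set (ℝ × ℝ)} {F : Finset (ℝ × ℝ)} (hp : F.card.Prime) (h : HT T F)
    (hx : ∀ s ∈ cor T F, ∀ s' ∈ cor T F, ∃ n : ℤ, s'.1 = s.1 + n) :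
    ∃ T', HT T' F ∧ PerSet T' := by
  classical
  obtain ⟨⟨t₀, ht₀⟩, v₀, hv₀⟩ := ht_ne h
  have hS := sqPart_cor h
  have hcor : ∀ t ∈ T, ∀ v ∈ F, t + v ∈ cor T F := fun t ht v hv => ⟨t, ht, v, hv, rfl⟩
  have hv : ∀ v ∈ F, v.1 - v₀.1 = ((⌊v.1 - v₀.1⌋ : ℤ) : ℝ) := by
    intro v hv
    obtain ⟨n, hn⟩ := hx _ (hcor t₀ ht₀ v₀ hv₀) _ (hcor t₀ ht₀ v hv)
    have h1 : v.1 - v₀.1 = (n : ℝ) := by
      simp only [Prod.fst_add] at hn
      linarith
    rw [h1, Int.floor_intCast]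
  obtain ⟨γ, hγ⟩ : ∃ γ : ℝ × ℝ → ℤ × ℝ, γ = fun v => (⌊v.1 - v₀.1⌋, v.2 - v₀.2) := ⟨_, rfl⟩
  have hγinj : ∀ v ∈ F, ∀ v' ∈ F, γ v = γ v' → v = v' := by
    intro v hvF v' hvF' he
    rw [hγ] at he
    have h1 := congrArg Prod.fst he
    have h2 := congrArg Prod.snd he
    simp only at h1 h2
    have h3 := hv v hvF
    have h4 := hv v' hvF'
    rw [h1] at h3
    refine Prod.ext ?_ ?_
    · linarith
    · linarith
  obtain ⟨G, hG⟩ : ∃ G : Finset (ℤ × ℝ), G = F.image γ := ⟨_, rfl⟩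
  have hGc : G.card = F.card := by
    rw [hG]
    exact Finset.card_image_of_injOn fun v hv v' hv' he => hγinj v hv v' hv' he
  obtain ⟨τ, hτ⟩ : ∃ τ : ℤ → Set ℝ, 
      τ = fun (j : ℤ) => {y : ℝ | (t₀.1 + (j : ℝ), y) ∈ T} := ⟨_, rfl⟩
  have hsep : Sep τ := by
    intro j
    by_cases hne : (τ j).Nonempty
    · obtain ⟨y, hy⟩ := hne
      rw [hτ] at hy
      refine ⟨y, fun s hs => ?_⟩
      rw [hτ] at hs
      obtain ⟨n, hn⟩ := vert hS (t₀.1 + (j : ℝ) + v₀.1) _ (hcor _ hy v₀ hv₀) _ (hcor _ hs v₀ hv₀)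
        le_rfl (by simp) le_rfl (by simp)
      simp only [Prod.snd_add] at hn
      exact ⟨n, by linarith⟩
    · refine ⟨0, fun s hs => absurd ⟨s, hs⟩ hne⟩
  have hcov : Cov (unit τ) G := by
    rintro ⟨i, y⟩
    obtain ⟨⟨t, v⟩, ⟨h1, h2, h3, h4, h5, h6⟩, hu⟩ := h (t₀.1 + v₀.1 + (i : ℝ), y + v₀.2)
    simp only [Prod.fst_add, Prod.snd_add] at h1 h2 h3 h4 h5 h6
    obtain ⟨n, hn⟩ := hx _ (hcor t₀ ht₀ v₀ hv₀) _ (hcor t h1 v h2)
    simp only [Prod.fst_add] at hn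
    have hni : n = i := by
      have h7 : (n : ℝ) < (i : ℝ) + 1 := by linarith
      have h8 : (i : ℝ) < (n : ℝ) + 1 := by linarith
      have h7' : n < i + 1 := by exact_mod_cast h7
      have h8' : i < n + 1 := by exact_mod_cast h8
      omega
    have hvf := hv v h2
    have hmem : ∀ v' ∈ F, ((i, y) - γ v' ∈ unit τ ↔
        ∃ s, (t₀.1 + (i : ℝ) - (v'.1 - v₀.1), s) ∈ T ∧ s ≤ y - (v'.2 - v₀.2) ∧
          y - (v'.2 - v₀.2) < s + 1) := by
      intro v' hv'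
      rw [hγ, hτ]
      show (∃ s ∈ {y | (t₀.1 + ((i - ⌊v'.1 - v₀.1⌋ : ℤ) : ℝ), y) ∈ T}, _) ↔ _
      have e1 : t₀.1 + ((i - ⌊v'.1 - v₀.1⌋ : ℤ) : ℝ) = t₀.1 + (i : ℝ) - (v'.1 - v₀.1) := by
        push_cast
        rw [← hv v' hv']
        ring
      rw [e1]
      rfl
    refine ⟨γ v, ⟨?_, ?_⟩, ?_⟩
    · rw [hG]; exact Finset.mem_image_of_mem γ h2
    · rw [hmem v h2]
      refine ⟨t.2, ?_, by linarith, by linarith⟩
      have e2 : (t₀.1 + (i : ℝ) - (v.1 - v₀.1), t.2) = t := by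
        refine Prod.ext ?_ rfl
        show t₀.1 + (i : ℝ) - (v.1 - v₀.1) = t.1
        rw [← hni]
        linarith
      rw [e2]
      exact h1
    · rintro g ⟨hg, hgE⟩
      rw [hG] at hg
      obtain ⟨v', hv', rfl⟩ := Finset.mem_image.1 hg
      rw [hmem v' hv'] at hgE
      obtain ⟨s, hsT, hs1, hs2⟩ := hgE
      have h9 := hu ((t₀.1 + (i : ℝ) - (v'.1 - v₀.1), s), v') ⟨hsT, hv', by
        simp only [Prod.fst_add]; linarith, by simp only [Prod.fst_add]; linarith, by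
        simp only [Prod.snd_add]; linarith, by simp only [Prod.snd_add]; linarith⟩
      have h10 : v' = v := congrArg Prod.snd h9
      rw [h10]
  obtain ⟨τ', hsep', hcov', k, N, w, hk, hN, hp1, hp2⟩ := col τ hsep G (by rw [hGc]; exact hp) hcov
  refine ⟨{t | ∃ j : ℤ, t.1 = t₀.1 + j ∧ t.2 ∈ τ' j}, ?_, ?_⟩
  · intro z
    obtain ⟨i, hi⟩ : ∃ i : ℤ, i = ⌊z.1 - t₀.1 - v₀.1⌋ := ⟨_, rfl⟩
    have hi1 := Int.floor_le (z.1 - t₀.1 - v₀.1)
    have hi2 := Int.lt_floor_add_one (z.1 - t₀.1 - v₀.1)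
    rw [← hi] at hi1 hi2
    obtain ⟨g, ⟨hg, s, hs, hs1, hs2⟩, hu⟩ := hcov' (i, z.2 - v₀.2)
    rw [hG] at hg
    obtain ⟨v, hvF, rfl⟩ := Finset.mem_image.1 hg
    have hgv : γ v = (⌊v.1 - v₀.1⌋, v.2 - v₀.2) := by rw [hγ]
    rw [hgv] at hs hs1 hs2
    simp only [Prod.mk_sub_mk] at hs hs1 hs2
    refine ⟨((t₀.1 + ((i - ⌊v.1 - v₀.1⌋ : ℤ) : ℝ), s), v), ⟨⟨_, rfl, hs⟩, hvF, ?_, ?_, ?_, ?_⟩, ?_⟩
    · simp only [Prod.fst_add]
      push_cast
      rw [← hv v hvF]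
      linarith
    · simp only [Prod.fst_add]
      push_cast
      rw [← hv v hvF]
      linarith
    · simp only [Prod.snd_add]
      linarith
    · simp only [Prod.snd_add]
      linarith
    · rintro ⟨t, v'⟩ ⟨⟨j, hj, hjs⟩, hv', a1, a2, a3, a4⟩
      simp only [Prod.fst_add, Prod.snd_add] at a1 a2 a3 a4 hj hjs hv'
      have hvf' := hv v' hv'
      have hij : j + ⌊v'.1 - v₀.1⌋ = i := by
        have h7 : ((j + ⌊v'.1 - v₀.1⌋ : ℤ) : ℝ) < (i : ℝ) + 1 := by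
          push_cast
          rw [← hvf']
          linarith
        have h8 : (i : ℝ) < ((j + ⌊v'.1 - v₀.1⌋ : ℤ) : ℝ) + 1 := by
          push_cast
          rw [← hvf']
          linarith
        have h7' : j + ⌊v'.1 - v₀.1⌋ < i + 1 := by exact_mod_cast h7
        have h8' : i < j + ⌊v'.1 - v₀.1⌋ + 1 := by exact_mod_cast h8
        omega
      have hgv' : γ v' = (⌊v'.1 - v₀.1⌋, v'.2 - v₀.2) := by rw [hγ]
      have hjj : i - ⌊v'.1 - v₀.1⌋ = j := by omega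
      have h9 := hu (γ v') ⟨by rw [hG]; exact Finset.mem_image_of_mem γ hv', by
        rw [hgv']
        refine ⟨t.2, ?_, ?_, ?_⟩
        · show t.2 ∈ τ' (i - ⌊v'.1 - v₀.1⌋)
          rw [hjj]
          exact hjs
        · show t.2 ≤ z.2 - v₀.2 - (v'.2 - v₀.2)
          linarith
        · show z.2 - v₀.2 - (v'.2 - v₀.2) < t.2 + 1
          linarith⟩
      have h10 : v' = v := hγinj v' hv' v hvF h9
      subst h10
      rw [hjj] at hs ⊢
      obtain ⟨c, hc⟩ := hsep' j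
      obtain ⟨n, hn⟩ := hc s hs
      obtain ⟨n', hn'⟩ := hc t.2 hjs
      have hnn : n = n' := by
        have h7 : (n : ℝ) < (n' : ℝ) + 1 := by linarith
        have h8 : (n' : ℝ) < (n : ℝ) + 1 := by linarith
        have h7' : n < n' + 1 := by exact_mod_cast h7
        have h8' : n' < n + 1 := by exact_mod_cast h8
        omega
      have hst : t.2 = s := by rw [hn, hn', hnn]
      refine Prod.ext (Prod.ext hj hst) rfl
  · refine ⟨((k : ℝ), w), ((0 : ℝ), (N : ℝ)), ?_, ?_, ?_⟩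
    · rw [LinearIndependent.pair_iff]
      intro a b hab
      have h1 := congrArg Prod.fst hab
      have h2 := congrArg Prod.snd hab
      simp only [Prod.smul_mk, Prod.mk_add_mk, smul_eq_mul, mul_zero, add_zero, Prod.fst_zero,
        Prod.snd_zero] at h1 h2
      have hk' : (k : ℝ) ≠ 0 := by exact_mod_cast hk.ne'
      have hN' : (N : ℝ) ≠ 0 := by exact_mod_cast hN.ne'
      have ha : a = 0 := by
        rcases mul_eq_zero.1 h1 with h | h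
        · exact h
        · exact absurd h hk'
      rw [ha, zero_mul, zero_add] at h2
      refine ⟨ha, ?_⟩
      rcases mul_eq_zero.1 h2 with h | h
      · exact h
      · exact absurd h hN'
    · intro t
      constructor
      · rintro ⟨j, h1, h2⟩
        refine ⟨j + k, ?_, (hp1 j t.2).1 h2⟩
        show t.1 + (k : ℝ) = t₀.1 + ((j + k : ℤ) : ℝ)
        push_cast
        linarith
      · rintro ⟨j, h1, h2⟩
        have h1' : t.1 + (k : ℝ) = t₀.1 + (j : ℝ) := h1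
        have h2' : t.2 + w ∈ τ' j := h2
        refine ⟨j - k, ?_, (hp1 (j - k) t.2).2 ?_⟩
        · push_cast
          linarith
        · rw [sub_add_cancel]
          exact h2'
    · intro t
      constructor
      · rintro ⟨j, h1, h2⟩
        refine ⟨j, ?_, (hp2 j t.2).1 h2⟩
        show t.1 + (0 : ℝ) = t₀.1 + (j : ℝ)
        linarith
      · rintro ⟨j, h1, h2⟩
        have h1' : t.1 + (0 : ℝ) = t₀.1 + (j : ℝ) := h1
        have h2' : t.2 + (N : ℝ) ∈ τ' j := h2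
        exact ⟨j, by linarith, (hp2 j t.2).2 h2'⟩

/-- reflection of a set -/
def sw (T : Set (ℝ × ℝ)) : Set (ℝ × ℝ) := {t | t.swap ∈ T}

lemma ht_swap {T : Set (ℝ × ℝ)} {F : Finset (ℝ × ℝ)} (h : HT T F) :
    HT (sw T) (F.image Prod.swap) := by
  intro z
  obtain ⟨q, ⟨h1, h2, h3, h4, h5, h6⟩, hu⟩ := h z.swap
  refine ⟨(q.1.swap, q.2.swap), ⟨?_, Finset.mem_image_of_mem _ h2, h5, h6, h3, h4⟩, ?_⟩
  · show q.1.swap.swap ∈ T
    rw [Prod.swap_swap]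
    exact h1
  · rintro ⟨t, v⟩ ⟨a1, a2, a3, a4, a5, a6⟩
    obtain ⟨v', hv', rfl⟩ := Finset.mem_image.1 a2
    have h7 := hu (t.swap, v') ⟨a1, hv', a5, a6, a3, a4⟩
    have h8 : t.swap = q.1 := congrArg Prod.fst h7
    have h9 : v' = q.2 := congrArg Prod.snd h7
    rw [← h8, ← h9, Prod.swap_swap]

lemma per_swap {T : Set (ℝ × ℝ)} (h : PerSet T) : PerSet (sw T) := by
  obtain ⟨u, v, huv, h1, h2⟩ := h
  refine ⟨u.swap, v.swap, ?_, fun t => ?_, fun t => ?_⟩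
  · rw [LinearIndependent.pair_iff] at huv ⊢
    intro a b hab
    refine huv a b ?_
    have h3 := congrArg Prod.fst hab
    have h4 := congrArg Prod.snd hab
    exact Prod.ext h4 h3
  · exact h1 t.swap
  · exact h2 t.swap

/-- **Half-open clusters.** -/
theorem half {T : Set (ℝ × ℝ)} {F : Finset (ℝ × ℝ)} (hp : F.card.Prime) (h : HT T F) :
    ∃ T', HT T' F ∧ PerSet T' := by
  classical
  rcases rows_or_columns (sqPart_cor h) with hc | hc
  · exact half_col hp h hc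
  · have hF : (F.image Prod.swap).card = F.card :=
      Finset.card_image_of_injective F Prod.swap_injective
    obtain ⟨T', hT', hP⟩ := half_col (by rw [hF]; exact hp) (ht_swap h) (by
      rintro s ⟨t, ht, v, hv, rfl⟩ s' ⟨t', ht', v', hv', rfl⟩
      obtain ⟨w, hw, rfl⟩ := Finset.mem_image.1 hv
      obtain ⟨w', hw', rfl⟩ := Finset.mem_image.1 hv'
      exact hc _ ⟨t.swap, ht, w, hw, rfl⟩ _ ⟨t'.swap, ht', w', hw', rfl⟩)
    refine ⟨sw T', ?_, per_swap hP⟩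
    have h1 := ht_swap hT'
    rwa [Finset.image_image, Prod.swap_swap_eq, Finset.image_id] at h1

end Pool.Agent.PSQ
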