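import Pool.Agent.PSQ.Defs
import Pool.Agent.PSQ.Half

set_option autoImplicit false

/-!
# Closed squares and half-open squares
-/

namespace Pool.Agent.PSQ

open Finset Topology

/-- the closed unit square with lower left corner `c` -/
def csq (c : ℝ × ℝ) : Set (ℝ × ℝ) := Set.Icc c.1 (c.1 + 1) ×ˢ Set.Icc c.2 (c.2 + 1)

/-- the open unit square -/
def osq (c : ℝ × ℝ) : Set (ℝ × ℝ) := Set.Ioo c.1 (c.1 + 1) ×ˢ Set.Ioo c.2 (c.2 + 1)

lemma mem_csq {c z : ℝ × ℝ} : z ∈ csq c ↔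
    c.1 ≤ z.1 ∧ z.1 ≤ c.1 + 1 ∧ c.2 ≤ z.2 ∧ z.2 ≤ c.2 + 1 := by
  unfold csq
  rw [Set.mem_prod, Set.mem_Icc, Set.mem_Icc]
  tauto

lemma mem_osq {c z : ℝ × ℝ} : z ∈ osq c ↔
    c.1 < z.1 ∧ z.1 < c.1 + 1 ∧ c.2 < z.2 ∧ z.2 < c.2 + 1 := by
  unfold osq
  rw [Set.mem_prod, Set.mem_Ioo, Set.mem_Ioo]
  tauto

lemma isOpen_osq (c : ℝ × ℝ) : IsOpen (osq c) := isOpen_Ioo.prod isOpen_Ioo

lemma osq_sub (c : ℝ × ℝ) : osq c ⊆ csq c := fun z hz => by
  rw [mem_osq] at hz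
  rw [mem_csq]
  exact ⟨hz.1.le, hz.2.1.le, hz.2.2.1.le, hz.2.2.2.le⟩

lemma csq_sub_closure (c : ℝ × ℝ) : csq c ⊆ closure (osq c) := by
  unfold osq csq
  rw [closure_prod_eq, closure_Ioo (by simp), closure_Ioo (by simp)]

lemma isCompact_csq (c : ℝ × ℝ) : IsCompact (csq c) := isCompact_Icc.prod isCompact_Icc

lemma mem_tr {C : Set (ℝ × ℝ)} {t z : ℝ × ℝ} : z ∈ tr C t ↔ z - t ∈ C := by
  unfold tr
  constructor
  · rintro ⟨x, hx, rfl⟩
    simpa using hx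
  · intro h
    exact ⟨z - t, h, by simp⟩

lemma tr_csq (c t : ℝ × ℝ) : tr (csq c) t = csq (t + c) := by
  ext z
  rw [mem_tr, mem_csq, mem_csq]
  simp only [Prod.fst_sub, Prod.snd_sub, Prod.fst_add, Prod.snd_add]
  constructor
  · rintro ⟨h1, h2, h3, h4⟩
    refine ⟨by linarith, by linarith, by linarith, by linarith⟩
  · rintro ⟨h1, h2, h3, h4⟩
    refine ⟨by linarith, by linarith, by linarith, by linarith⟩

/-- a cluster of squares -/
def clus (F : Finset (ℝ × ℝ)) : Set (ℝ × ℝ) := ⋃ v ∈ F, csq v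

lemma mem_tr_clus {F : Finset (ℝ × ℝ)} {t z : ℝ × ℝ} :
    z ∈ tr (clus F) t ↔ ∃ v ∈ F, z ∈ csq (t + v) := by
  rw [mem_tr]
  unfold clus
  simp only [Set.mem_iUnion, exists_prop]
  refine exists_congr fun v => and_congr_right fun _ => ?_
  rw [← mem_tr, tr_csq]

lemma osq_sub_interior {F : Finset (ℝ × ℝ)} {t v : ℝ × ℝ} (hv : v ∈ F) :
    osq (t + v) ⊆ interior (tr (clus F) t) := by
  refine interior_maximal (fun z hz => ?_) (isOpen_osq _)
  rw [mem_tr_clus]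
  exact ⟨v, hv, osq_sub _ hz⟩

/-- two squares with close corners meet -/
lemma meet {c c' : ℝ × ℝ} (h1 : |c.1 - c'.1| < 1) (h2 : |c.2 - c'.2| < 1) :
    ∃ z, z ∈ osq c ∧ z ∈ osq c' := by
  rw [abs_lt] at h1 h2
  refine ⟨((c.1 + c'.1 + 1) / 2, (c.2 + c'.2 + 1) / 2), ?_, ?_⟩
  · rw [mem_osq]
    refine ⟨?_, ?_, ?_, ?_⟩ <;> simp only <;> linarith
  · rw [mem_osq]
    refine ⟨?_, ?_, ?_, ?_⟩ <;> simp only <;> linarith

lemma sep_of {F : Finset (ℝ × ℝ)} {T : Set (ℝ × ℝ)}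
    (hF : ∀ v ∈ F, ∀ w ∈ F, v ≠ w → Disjoint (interior (csq v)) (interior (csq w)))
    (hT : Tiling (clus F) T) {t v t' v' : ℝ × ℝ} (ht : t ∈ T) (hv : v ∈ F) (ht' : t' ∈ T)
    (hv' : v' ∈ F) (h1 : |(t + v).1 - (t' + v').1| < 1) (h2 : |(t + v).2 - (t' + v').2| < 1) :
    t = t' ∧ v = v' := by
  obtain ⟨z, hz1, hz2⟩ := meet h1 h2
  have htt : t = t' := by
    by_contra hne
    exact Set.disjoint_left.1 (hT.1 t ht t' ht' hne) (osq_sub_interior hv hz1)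
      (osq_sub_interior hv' hz2)
  subst htt
  refine ⟨rfl, ?_⟩
  by_contra hne
  have h3 : |v.1 - v'.1| < 1 := by
    have e : (t + v).1 - (t + v').1 = v.1 - v'.1 := by
      simp only [Prod.fst_add]; ring
    rwa [e] at h1
  have h4 : |v.2 - v'.2| < 1 := by
    have e : (t + v).2 - (t + v').2 = v.2 - v'.2 := by
      simp only [Prod.snd_add]; ring
    rwa [e] at h2
  obtain ⟨x, hx1, hx2⟩ := meet h3 h4
  exact Set.disjoint_left.1 (hF v hv v' hv' hne)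
    (interior_maximal (osq_sub v) (isOpen_osq v) hx1)
    (interior_maximal (osq_sub v') (isOpen_osq v') hx2)

/-- a point outside a half-open square is not a limit from above right of the closed square -/
lemma ev_notMem {c z : ℝ × ℝ}
    (h : ¬ (c.1 ≤ z.1 ∧ z.1 < c.1 + 1 ∧ c.2 ≤ z.2 ∧ z.2 < c.2 + 1)) :
    ∀ᶠ e in 𝓝[>] (0 : ℝ), (z.1 + e, z.2 + e) ∉ csq c := by
  by_cases h1 : c.1 ≤ z.1
  · by_cases h2 : z.1 < c.1 + 1
    · by_cases h3 : c.2 ≤ z.2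
      · have h4 : c.2 + 1 ≤ z.2 := by
          by_contra h5
          exact h ⟨h1, h2, h3, by linarith⟩
        filter_upwards [self_mem_nhdsWithin] with e he hc
        rw [mem_csq] at hc
        have he' : (0 : ℝ) < e := he
        have := hc.2.2.2
        simp only at this
        linarith
      · have h4 : 0 < c.2 - z.2 := by linarith
        filter_upwards [Ioo_mem_nhdsGT h4] with e he hc
        rw [mem_csq] at hc
        have := hc.2.2.1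
        simp only at this
        linarith [he.2]
    · filter_upwards [self_mem_nhdsWithin] with e he hc
      rw [mem_csq] at hc
      have he' : (0 : ℝ) < e := he
      have := hc.2.1
      simp only at this
      linarith
  · have h4 : 0 < c.1 - z.1 := by linarith
    filter_upwards [Ioo_mem_nhdsGT h4] with e he hc
    rw [mem_csq] at hc
    have := hc.1
    simp only at this
    linarith [he.2]

lemma loc_fin {F : Finset (ℝ × ℝ)} {T : Set (ℝ × ℝ)}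
    (hF : ∀ v ∈ F, ∀ w ∈ F, v ≠ w → Disjoint (interior (csq v)) (interior (csq w)))
    (hT : Tiling (clus F) T) (z : ℝ × ℝ) :
    {q : (ℝ × ℝ) × (ℝ × ℝ) | q.1 ∈ T ∧ q.2 ∈ F ∧ |(q.1 + q.2).1 - z.1| ≤ 2 ∧
      |(q.1 + q.2).2 - z.2| ≤ 2}.Finite := by
  refine Set.Finite.of_finite_image (f := fun q => (⌊(q.1 + q.2).1⌋, ⌊(q.1 + q.2).2⌋)) ?_ ?_
  · refine ((Set.finite_Icc (⌊z.1 - 2⌋) (⌊z.1 + 2⌋)).prod
      (Set.finite_Icc (⌊z.2 - 2⌋) (⌊z.2 + 2⌋))).subset ?_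
    rintro _ ⟨q, ⟨-, -, h3, h4⟩, rfl⟩
    rw [abs_le] at h3 h4
    refine ⟨⟨Int.floor_le_floor ?_, Int.floor_le_floor ?_⟩,
      ⟨Int.floor_le_floor ?_, Int.floor_le_floor ?_⟩⟩ <;> linarith
  · rintro ⟨t, v⟩ ⟨h1, h2, -, -⟩ ⟨t', v'⟩ ⟨h1', h2', -, -⟩ he
    have e1 := Int.abs_sub_lt_one_of_floor_eq_floor (congrArg Prod.fst he)
    have e2 := Int.abs_sub_lt_one_of_floor_eq_floor (congrArg Prod.snd he)
    obtain ⟨a, b⟩ := sep_of hF hT h1 h2 h1' h2' e1 e2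
    exact Prod.ext a b

theorem ht_of_tiling {F : Finset (ℝ × ℝ)} {T : Set (ℝ × ℝ)}
    (hF : ∀ v ∈ F, ∀ w ∈ F, v ≠ w → Disjoint (interior (csq v)) (interior (csq w)))
    (hT : Tiling (clus F) T) : HT T F := by
  intro z
  have hex : ∃ q : (ℝ × ℝ) × (ℝ × ℝ), q.1 ∈ T ∧ q.2 ∈ F ∧
    (q.1 + q.2).1 ≤ z.1 ∧ z.1 < (q.1 + q.2).1 + 1 ∧
    (q.1 + q.2).2 ≤ z.2 ∧ z.2 < (q.1 + q.2).2 + 1 := by
    by_contra hcon
    push Not at hcon
    have hfin := loc_fin hF hT z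
    have h1 : ∀ᶠ e in 𝓝[>] (0 : ℝ), ∀ q ∈ {q : (ℝ × ℝ) × (ℝ × ℝ) | q.1 ∈ T ∧ q.2 ∈ F ∧
        |(q.1 + q.2).1 - z.1| ≤ 2 ∧ |(q.1 + q.2).2 - z.2| ≤ 2},
        (z.1 + e, z.2 + e) ∉ csq (q.1 + q.2) := by
      rw [Filter.eventually_all_finite hfin]
      rintro q ⟨hq1, hq2, -, -⟩
      refine ev_notMem ?_
      rintro ⟨a1, a2, a3, a4⟩
      exact absurd a4 (not_lt.2 (hcon q hq1 hq2 a1 a2 a3))
    have h2 : ∀ᶠ e in 𝓝[>] (0 : ℝ), e ∈ Set.Ioo (0 : ℝ) 1 := Ioo_mem_nhdsGT one_pos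
    obtain ⟨e, he1, he2⟩ := (h1.and h2).exists
    have hmem : ((z.1 + e, z.2 + e) : ℝ × ℝ) ∈ ⋃ t ∈ T, tr (clus F) t := by
      rw [hT.2]
      exact Set.mem_univ _
    simp only [Set.mem_iUnion, exists_prop] at hmem
    obtain ⟨t, ht, hmem⟩ := hmem
    rw [mem_tr_clus] at hmem
    obtain ⟨v, hv, hmem⟩ := hmem
    refine he1 (t, v) ⟨ht, hv, ?_, ?_⟩ hmem
    · rw [mem_csq] at hmem
      have a1 := hmem.1
      have a2 := hmem.2.1
      simp only at a1 a2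
      rw [abs_le]
      constructor
      · show -2 ≤ (t + v).1 - z.1
        linarith [he2.1, he2.2]
      · show (t + v).1 - z.1 ≤ 2
        linarith [he2.1, he2.2]
    · rw [mem_csq] at hmem
      have a1 := hmem.2.2.1
      have a2 := hmem.2.2.2
      simp only at a1 a2
      rw [abs_le]
      constructor
      · show -2 ≤ (t + v).2 - z.2
        linarith [he2.1, he2.2]
      · show (t + v).2 - z.2 ≤ 2
        linarith [he2.1, he2.2]
  obtain ⟨q, hq⟩ := hex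
  refine ⟨q, hq, ?_⟩
  rintro q' ⟨b1, b2, b3, b4, b5, b6⟩
  obtain ⟨a1, a2, a3, a4, a5, a6⟩ := hq
  have h := sep_of hF hT b1 b2 a1 a2 (by rw [abs_lt]; constructor <;> linarith)
    (by rw [abs_lt]; constructor <;> linarith)
  exact Prod.ext h.1 h.2

theorem tiling_of_ht {F : Finset (ℝ × ℝ)} {T : Set (ℝ × ℝ)} (h : HT T F) :
    Tiling (clus F) T := by
  constructor
  · intro t ht t' ht' hne
    rw [Set.disjoint_left]
    intro z hz hz'
    obtain ⟨W, hW, hWo, hzW⟩ : ∃ W : Set (ℝ × ℝ), (W ⊆ tr (clus F) t ∧ W ⊆ tr (clus F) t') ∧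
        IsOpen W ∧ z ∈ W :=
      ⟨interior (tr (clus F) t) ∩ interior (tr (clus F) t'),
        ⟨fun x hx => interior_subset hx.1, fun x hx => interior_subset hx.2⟩,
        isOpen_interior.inter isOpen_interior, hz, hz'⟩
    obtain ⟨v, hv, hzv⟩ := mem_tr_clus.1 (hW.1 hzW)
    obtain ⟨x, hxW, hxo⟩ := mem_closure_iff.1 (csq_sub_closure _ hzv) W hWo hzW
    obtain ⟨v', hv', hxv⟩ := mem_tr_clus.1 (hW.2 hxW)
    obtain ⟨y, hyW, hyo⟩ := mem_closure_iff.1 (csq_sub_closure _ hxv) (W ∩ osq (t + v))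
      (hWo.inter (isOpen_osq _)) ⟨hxW, hxo⟩
    have h1 := mem_osq.1 hyW.2
    have h2 := mem_osq.1 hyo
    obtain ⟨q, -, hu⟩ := h y
    have h3 := hu (t, v) ⟨ht, hv, h1.1.le, h1.2.1, h1.2.2.1.le, h1.2.2.2⟩
    have h4 := hu (t', v') ⟨ht', hv', h2.1.le, h2.2.1, h2.2.2.1.le, h2.2.2.2⟩
    exact hne (congrArg Prod.fst (h3.trans h4.symm))
  · rw [Set.eq_univ_iff_forall]
    intro z
    obtain ⟨q, ⟨h1, h2, h3, h4, h5, h6⟩, -⟩ := h z
    simp only [Set.mem_iUnion, exists_prop]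
    exact ⟨q.1, h1, mem_tr_clus.2 ⟨q.2, h2, mem_csq.2 ⟨h3, h4.le, h5, h6.le⟩⟩⟩

lemma isBody_clus (F : Finset (ℝ × ℝ)) : IsBody (clus F) := by
  have hcomp : IsCompact (clus F) := F.isCompact_biUnion fun v _ => isCompact_csq v
  refine ⟨hcomp, Set.Subset.antisymm (closure_minimal interior_subset hcomp.isClosed) ?_⟩
  intro z hz
  unfold clus at hz
  simp only [Set.mem_iUnion, exists_prop] at hz
  obtain ⟨v, hv, hz⟩ := hz
  refine closure_mono ?_ (csq_sub_closure v hz)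
  refine interior_maximal (fun x hx => ?_) (isOpen_osq v)
  unfold clus
  simp only [Set.mem_iUnion, exists_prop]
  exact ⟨v, hv, osq_sub v hx⟩

/-- **Squares.** -/
theorem squares {F : Finset (ℝ × ℝ)} {T : Set (ℝ × ℝ)} (hp : F.card.Prime)
    (hF : ∀ v ∈ F, ∀ w ∈ F, v ≠ w → Disjoint (interior (csq v)) (interior (csq w)))
    (hT : Tiling (clus F) T) : ∃ T', Tiling (clus F) T' ∧ PerSet T' := by
  obtain ⟨T', h1, h2⟩ := half hp (ht_of_tiling hF hT)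
  exact ⟨T', tiling_of_ht h1, h2⟩

end Pool.Agent.PSQ
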