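import Mathlib

set_option autoImplicit false

/-!
# Tilings of the line by unit intervals and of the plane by unit squares
-/

namespace Pool.Agent.PSQ

/-- The left end points of a tiling of the line by unit intervals form a coset of `ℤ`. -/
lemma line (U : Set ℝ) (h : ∀ y : ℝ, ∃! u, u ∈ U ∧ u ≤ y ∧ y < u + 1) :
    ∀ u ∈ U, ∀ u' ∈ U, ∃ n : ℤ, u' = u + n := by
  have hstep : ∀ u ∈ U, u + 1 ∈ U := by
    intro u hu
    obtain ⟨v, ⟨hvU, hv1, hv2⟩, -⟩ := h (u + 1)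
    rcases eq_or_ne v (u + 1) with hv | hv
    · rwa [← hv]
    · have hlt : v < u + 1 := lt_of_le_of_ne hv1 hv
      have huv : u < v := by linarith
      obtain ⟨x, -, hx⟩ := h v
      have h1 := hx u ⟨hu, huv.le, hlt⟩
      have h2 := hx v ⟨hvU, le_rfl, by linarith⟩
      exact absurd (h1.trans h2.symm) huv.ne
  have hnat : ∀ u ∈ U, ∀ n : ℕ, u + n ∈ U := by
    intro u hu n
    induction n with
    | zero => simpa using hu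
    | succ n ih =>
      have := hstep _ ih
      push_cast
      rwa [add_assoc] at this
  have hle : ∀ u ∈ U, ∀ u' ∈ U, u ≤ u' → ∃ n : ℤ, u' = u + n := by
    intro u hu u' hu' huu
    have hn : 0 ≤ ⌊u' - u⌋ := Int.floor_nonneg.2 (by linarith)
    obtain ⟨n, hn'⟩ := Int.eq_ofNat_of_zero_le hn
    have h1 := Int.floor_le (u' - u)
    have h2 := Int.lt_floor_add_one (u' - u)
    rw [hn'] at h1 h2
    have hc : (((n : ℕ) : ℤ) : ℝ) = (n : ℝ) := by push_cast; rfl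
    rw [hc] at h1 h2
    obtain ⟨x, -, hx⟩ := h u'
    have h3 := hx (u + n) ⟨hnat u hu n, by linarith, by linarith⟩
    have h4 := hx u' ⟨hu', le_rfl, by linarith⟩
    exact ⟨(n : ℤ), by rw [hc, h4, ← h3]⟩
  intro u hu u' hu'
  rcases le_total u u' with hl | hl
  · exact hle u hu u' hu' hl
  · obtain ⟨n, hn⟩ := hle u' hu' u hu hl
    exact ⟨-n, by push_cast; linarith⟩

/-- The half-open squares with lower left corners in `S` form a partition of the plane. -/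
def SqPart (S : Set (ℝ × ℝ)) : Prop := ∀ z : ℝ × ℝ,
  ∃! s, s ∈ S ∧ s.1 ≤ z.1 ∧ z.1 < s.1 + 1 ∧ s.2 ≤ z.2 ∧ z.2 < s.2 + 1

lemma horiz {S : Set (ℝ × ℝ)} (h : SqPart S) (y : ℝ) : ∀ s ∈ S, ∀ s' ∈ S,
    s.2 ≤ y → y < s.2 + 1 → s'.2 ≤ y → y < s'.2 + 1 → ∃ n : ℤ, s'.1 = s.1 + n := by
  intro s hs s' hs' h1 h2 h3 h4
  refine line {u | ∃ s ∈ S, s.1 = u ∧ s.2 ≤ y ∧ y < s.2 + 1} ?_ s.1 ⟨s, hs, rfl, h1, h2⟩ s'.1
    ⟨s', hs', rfl, h3, h4⟩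
  intro x
  obtain ⟨t, ⟨ht, a1, a2, a3, a4⟩, hu⟩ := h (x, y)
  refine ⟨t.1, ⟨⟨t, ht, rfl, a3, a4⟩, a1, a2⟩, ?_⟩
  rintro u ⟨⟨t', ht', rfl, b1, b2⟩, b3, b4⟩
  rw [hu t' ⟨ht', b3, b4, b1, b2⟩]

lemma vert {S : Set (ℝ × ℝ)} (h : SqPart S) (x : ℝ) : ∀ s ∈ S, ∀ s' ∈ S,
    s.1 ≤ x → x < s.1 + 1 → s'.1 ≤ x → x < s'.1 + 1 → ∃ n : ℤ, s'.2 = s.2 + n := by
  intro s hs s' hs' h1 h2 h3 h4
  refine line {u | ∃ s ∈ S, s.2 = u ∧ s.1 ≤ x ∧ x < s.1 + 1} ?_ s.2 ⟨s, hs, rfl, h1, h2⟩ s'.2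
    ⟨s', hs', rfl, h3, h4⟩
  intro y
  obtain ⟨t, ⟨ht, a1, a2, a3, a4⟩, hu⟩ := h (x, y)
  refine ⟨t.2, ⟨⟨t, ht, rfl, a1, a2⟩, a3, a4⟩, ?_⟩
  rintro u ⟨⟨t', ht', rfl, b1, b2⟩, b3, b4⟩
  rw [hu t' ⟨ht', b1, b2, b3, b4⟩]

/-- Rows or columns. -/
theorem rows_or_columns {S : Set (ℝ × ℝ)} (h : SqPart S) :
    (∀ s ∈ S, ∀ s' ∈ S, ∃ n : ℤ, s'.1 = s.1 + n) ∨
      (∀ s ∈ S, ∀ s' ∈ S, ∃ n : ℤ, s'.2 = s.2 + n) := by
  have hex : ∀ y : ℝ, ∃ s, s ∈ S ∧ s.2 ≤ y ∧ y < s.2 + 1 := fun y => by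
    obtain ⟨t, ⟨ht, -, -, a3, a4⟩, -⟩ := h (0, y)
    exact ⟨t, ht, a3, a4⟩
  choose σ hσ using hex
  obtain ⟨ξ, hξ⟩ : ∃ ξ : ℝ → ℝ, ξ = fun y => Int.fract (σ y).1 := ⟨_, rfl⟩
  have hξs : ∀ s ∈ S, ∀ y, s.2 ≤ y → y < s.2 + 1 → Int.fract s.1 = ξ y := by
    intro s hs y h1 h2
    obtain ⟨n, hn⟩ := horiz h y s hs (σ y) (hσ y).1 h1 h2 (hσ y).2.1 (hσ y).2.2
    rw [hξ]
    show Int.fract s.1 = Int.fract (σ y).1
    rw [hn, Int.fract_add_intCast]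
  by_cases hloc : IsLocallyConstant ξ
  · left
    intro s hs s' hs'
    have h1 := hξs s hs s.2 le_rfl (by linarith)
    have h2 := hξs s' hs' s'.2 le_rfl (by linarith)
    have h3 : ξ s.2 = ξ s'.2 :=
      hloc.apply_eq_of_isPreconnected isPreconnected_univ (Set.mem_univ _) (Set.mem_univ _)
    rw [← h1, ← h2] at h3
    obtain ⟨n, hn⟩ := Int.fract_eq_fract.1 h3.symm
    exact ⟨n, by linarith⟩
  · right
    rw [IsLocallyConstant.iff_eventually_eq] at hloc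
    push Not at hloc
    obtain ⟨y₀, hy₀⟩ := hloc
    have hall : ∀ s ∈ S, ∃ n : ℤ, s.2 = y₀ + n := by
      intro s hs
      obtain ⟨s', ⟨hs', a1, a2, a3, a4⟩, -⟩ := h (s.1, y₀)
      obtain ⟨n, hn⟩ := vert h s.1 s hs s' hs' le_rfl (by linarith) a1 a2
      rcases eq_or_ne s'.2 y₀ with heq | hne
      · exact ⟨-n, by push_cast; linarith⟩
      · exfalso
        have hlt : s'.2 < y₀ := lt_of_le_of_ne a3 hne
        apply hy₀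
        have hmem : Set.Ioo s'.2 (s'.2 + 1) ∈ nhds y₀ := Ioo_mem_nhds hlt a4
        filter_upwards [hmem] with z hz
        have hzz : ξ z = ξ y₀ := by
          rw [← hξs s' hs' z hz.1.le hz.2, ← hξs s' hs' y₀ a3 a4]
        exact not_not.2 hzz
    intro s hs s' hs'
    obtain ⟨n, hn⟩ := hall s hs
    obtain ⟨n', hn'⟩ := hall s' hs'
    exact ⟨n' - n, by push_cast; linarith⟩

end Pool.Agent.PSQ
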