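import Pool.Agent.PSQ.Close

set_option autoImplicit false

/-!
# Clusters of parallelograms
-/

namespace Pool.Agent.PSQ

open Finset Topology

/-! ### The part covered by one square of the cluster is periodic -/

/-- the union of the half-open squares with corners in `T` -/
def EH (T : Set (ℝ × ℝ)) : Set (ℝ × ℝ) :=
  {z | ∃ t ∈ T, t.1 ≤ z.1 ∧ z.1 < t.1 + 1 ∧ t.2 ≤ z.2 ∧ z.2 < t.2 + 1}

/-- the union of the closed squares with corners in `T` -/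
def EC (T : Set (ℝ × ℝ)) : Set (ℝ × ℝ) := ⋃ t ∈ T, csq t

lemma mem_EC {T : Set (ℝ × ℝ)} {z : ℝ × ℝ} : z ∈ EC T ↔ ∃ t ∈ T, z ∈ csq t := by
  unfold EC
  simp only [Set.mem_iUnion, exists_prop]

lemma EH_per {F : Finset (ℝ × ℝ)} {T : Set (ℝ × ℝ)} (hp : F.card.Prime) (h : HT T F) :
    ∀ v ∈ F, ∀ w ∈ F, ∀ z, z ∈ EH T → z + F.card • (v - w) ∈ EH T := by
  have hpf : Fact F.card.Prime := ⟨hp⟩
  refine frob F.card F rfl (EH T) fun z => ?_
  obtain ⟨q, ⟨h1, h2, h3, h4, h5, h6⟩, hu⟩ := h z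
  have hsub : ∀ v, z - v ∈ EH T ↔ ∃ t ∈ T, (t + v).1 ≤ z.1 ∧ z.1 < (t + v).1 + 1 ∧
      (t + v).2 ≤ z.2 ∧ z.2 < (t + v).2 + 1 := by
    intro v
    refine exists_congr fun t => and_congr_right fun _ => ?_
    simp only [Prod.fst_sub, Prod.snd_sub, Prod.fst_add, Prod.snd_add]
    constructor
    · rintro ⟨a1, a2, a3, a4⟩
      exact ⟨by linarith, by linarith, by linarith, by linarith⟩
    · rintro ⟨a1, a2, a3, a4⟩
      exact ⟨by linarith, by linarith, by linarith, by linarith⟩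
  refine ⟨q.2, ⟨h2, (hsub q.2).2 ⟨q.1, h1, h3, h4, h5, h6⟩⟩, ?_⟩
  rintro v ⟨hv, hvE⟩
  obtain ⟨t, ht, ht'⟩ := (hsub v).1 hvE
  have h7 := hu (t, v) ⟨ht, hv, ht'⟩
  rw [← h7]

lemma EC_closed {F : Finset (ℝ × ℝ)} {T : Set (ℝ × ℝ)} {v₀ : ℝ × ℝ} (hv₀ : v₀ ∈ F)
    (hF : ∀ v ∈ F, ∀ w ∈ F, v ≠ w → Disjoint (interior (csq v)) (interior (csq w)))
    (hT : Tiling (clus F) T) : IsClosed (EC T) := by
  rw [← isOpen_compl_iff, isOpen_iff_mem_nhds]
  intro z hz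
  have hfin : {t : ℝ × ℝ | t ∈ T ∧ |t.1 - z.1| ≤ 2 ∧ |t.2 - z.2| ≤ 2}.Finite := by
    have h1 := loc_fin hF hT (z + v₀)
    refine (h1.image Prod.fst).subset ?_
    rintro t ⟨ht, h2, h3⟩
    refine ⟨(t, v₀), ⟨ht, hv₀, ?_, ?_⟩, rfl⟩
    · show |(t + v₀).1 - (z + v₀).1| ≤ 2
      simp only [Prod.fst_add, add_sub_add_right_eq_sub]
      exact h2
    · show |(t + v₀).2 - (z + v₀).2| ≤ 2
      simp only [Prod.snd_add, add_sub_add_right_eq_sub]
      exact h3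
  have h1 : ∀ᶠ x in 𝓝 z, ∀ t ∈ {t : ℝ × ℝ | t ∈ T ∧ |t.1 - z.1| ≤ 2 ∧ |t.2 - z.2| ≤ 2},
      x ∉ csq t := by
    rw [Filter.eventually_all_finite hfin]
    rintro t ⟨ht, -, -⟩
    have hzt : z ∉ csq t := fun hc => hz (mem_EC.2 ⟨t, ht, hc⟩)
    exact (isCompact_csq t).isClosed.isOpen_compl.mem_nhds hzt
  have h2 : ∀ᶠ x in 𝓝 z, x ∈ Set.Ioo (z.1 - 1) (z.1 + 1) ×ˢ Set.Ioo (z.2 - 1) (z.2 + 1) :=
    (isOpen_Ioo.prod isOpen_Ioo).mem_nhds
      ⟨⟨by linarith, by linarith⟩, ⟨by linarith, by linarith⟩⟩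
  filter_upwards [h1, h2] with x hx1 hx2 hc
  obtain ⟨t, ht, hxt⟩ := mem_EC.1 hc
  obtain ⟨⟨b1, b2⟩, ⟨b3, b4⟩⟩ := hx2
  have hx3 := mem_csq.1 hxt
  refine hx1 t ⟨ht, ?_, ?_⟩ hxt
  · rw [abs_le]
    constructor <;> linarith [hx3.1, hx3.2.1]
  · rw [abs_le]
    constructor <;> linarith [hx3.2.2.1, hx3.2.2.2]

lemma EC_eq_closure {F : Finset (ℝ × ℝ)} {T : Set (ℝ × ℝ)} {v₀ : ℝ × ℝ} (hv₀ : v₀ ∈ F)
    (hF : ∀ v ∈ F, ∀ w ∈ F, v ≠ w → Disjoint (interior (csq v)) (interior (csq w)))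
    (hT : Tiling (clus F) T) : EC T = closure (EH T) := by
  refine Set.Subset.antisymm ?_ ?_
  · intro z hz
    obtain ⟨t, ht, hzt⟩ := mem_EC.1 hz
    refine closure_mono ?_ (csq_sub_closure t hzt)
    intro x hx
    have h := mem_osq.1 hx
    exact ⟨t, ht, h.1.le, h.2.1, h.2.2.1.le, h.2.2.2⟩
  · refine closure_minimal ?_ (EC_closed hv₀ hF hT)
    rintro z ⟨t, ht, h1, h2, h3, h4⟩
    exact mem_EC.2 ⟨t, ht, mem_csq.2 ⟨h1, h2.le, h3, h4.le⟩⟩

lemma EC_per {F : Finset (ℝ × ℝ)} {T : Set (ℝ × ℝ)} (hp : F.card.Prime)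
    (hF : ∀ v ∈ F, ∀ w ∈ F, v ≠ w → Disjoint (interior (csq v)) (interior (csq w)))
    (hT : Tiling (clus F) T) : ∀ v ∈ F, ∀ w ∈ F, ∀ z, z ∈ EC T → z + F.card • (v - w) ∈ EC T := by
  intro v hv w hw z hz
  have h := EH_per hp (ht_of_tiling hF hT) v hv w hw
  rw [EC_eq_closure hv hF hT] at hz ⊢
  exact map_mem_closure (f := fun x => x + F.card • (v - w)) (by fun_prop) hz h

/-! ### Linear images -/

lemma tr_image (e : (ℝ × ℝ) ≃L[ℝ] (ℝ × ℝ)) (C : Set (ℝ × ℝ)) (t : ℝ × ℝ) :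
    tr (e '' C) (e t) = e '' (tr C t) := by
  ext z
  constructor
  · rintro ⟨_, ⟨x, hx, rfl⟩, rfl⟩
    exact ⟨x + t, ⟨x, hx, rfl⟩, by rw [map_add]⟩
  · rintro ⟨_, ⟨x, hx, rfl⟩, rfl⟩
    exact ⟨e x, ⟨x, hx, rfl⟩, by rw [map_add]⟩

lemma interior_image (e : (ℝ × ℝ) ≃L[ℝ] (ℝ × ℝ)) (C : Set (ℝ × ℝ)) :
    interior (e '' C) = e '' (interior C) :=
  (e.toHomeomorph.image_interior C).symm

lemma tiling_image (e : (ℝ × ℝ) ≃L[ℝ] (ℝ × ℝ)) {C T : Set (ℝ × ℝ)} (h : Tiling C T) :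
    Tiling (e '' C) (e '' T) := by
  constructor
  · rintro _ ⟨s, hs, rfl⟩ _ ⟨t, ht, rfl⟩ hne
    rw [tr_image, tr_image, interior_image, interior_image]
    exact Set.disjoint_image_of_injective e.injective
      (h.1 s hs t ht fun he => hne (by rw [he]))
  · rw [Set.eq_univ_iff_forall]
    intro z
    have h1 : e.symm z ∈ ⋃ t ∈ T, tr C t := by rw [h.2]; exact Set.mem_univ _
    simp only [Set.mem_iUnion, exists_prop] at h1 ⊢
    obtain ⟨t, ht, hz⟩ := h1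
    refine ⟨e t, ⟨t, ht, rfl⟩, ?_⟩
    rw [tr_image]
    exact ⟨_, hz, e.apply_symm_apply z⟩

lemma isBody_image (e : (ℝ × ℝ) ≃L[ℝ] (ℝ × ℝ)) {C : Set (ℝ × ℝ)} (h : IsBody C) :
    IsBody (e '' C) := by
  refine ⟨h.1.image e.continuous, ?_⟩
  rw [interior_image]
  have h1 : closure (e '' interior C) = e '' closure (interior C) :=
    (e.toHomeomorph.image_closure (interior C)).symm
  rw [h1, h.2]

lemma periodic_image (e : (ℝ × ℝ) ≃L[ℝ] (ℝ × ℝ)) {T : Set (ℝ × ℝ)} (h : PerSet T) :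
    Periodic (e '' T) := by
  obtain ⟨u, v, huv, h1, h2⟩ := h
  have key : ∀ u : ℝ × ℝ, (∀ t, t ∈ T ↔ t + u ∈ T) → tr (e '' T) (e u) = e '' T := by
    intro u hu
    rw [tr_image]
    congr 1
    ext z
    rw [mem_tr, hu (z - u), sub_add_cancel]
  refine ⟨e u, e v, ?_, key u h1, key v h2⟩
  rw [LinearIndependent.pair_iff] at huv ⊢
  intro a b hab
  refine huv a b (e.injective ?_)
  rw [map_add, map_smul, map_smul, hab, map_zero]

/-- the linear map with `(1,0) ↦ a`, `(0,1) ↦ b` -/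
def lin (a b : ℝ × ℝ) : (ℝ × ℝ) →ₗ[ℝ] (ℝ × ℝ) where
  toFun z := z.1 • a + z.2 • b
  map_add' x y := by
    simp only [Prod.fst_add, Prod.snd_add, add_smul]
    abel
  map_smul' r x := by
    simp only [Prod.smul_fst, Prod.smul_snd, smul_eq_mul, mul_smul, smul_add, RingHom.id_apply]

lemma exists_equiv {a b : ℝ × ℝ} (hab : LinearIndependent ℝ ![a, b]) :
    ∃ e : (ℝ × ℝ) ≃L[ℝ] (ℝ × ℝ), ∀ z, e z = z.1 • a + z.2 • b := by
  have hinj : Function.Injective (lin a b) := by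
    rw [injective_iff_map_eq_zero]
    intro z hz
    rw [LinearIndependent.pair_iff] at hab
    obtain ⟨h1, h2⟩ := hab z.1 z.2 hz
    exact Prod.ext h1 h2
  exact ⟨(LinearEquiv.ofInjectiveEndo (lin a b) hinj).toContinuousLinearEquiv, fun z => rfl⟩

lemma par_eq {a b : ℝ × ℝ} (e : (ℝ × ℝ) ≃L[ℝ] (ℝ × ℝ)) (he : ∀ z, e z = z.1 • a + z.2 • b) :
    par a b = e '' csq 0 := by
  ext x
  constructor
  · rintro ⟨s, hs, t, ht, rfl⟩
    refine ⟨(s, t), mem_csq.2 ⟨hs.1, ?_, ht.1, ?_⟩, by rw [he]⟩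
    · simpa using hs.2
    · simpa using ht.2
  · rintro ⟨z, hz, rfl⟩
    rw [mem_csq] at hz
    simp only [Prod.fst_zero, Prod.snd_zero, zero_add] at hz
    exact ⟨z.1, ⟨hz.1, hz.2.1⟩, z.2, ⟨hz.2.2.1, hz.2.2.2⟩, he z⟩

/-- **Main theorem.** -/
theorem main (a b : ℝ × ℝ) (hab : LinearIndependent ℝ ![a, b]) (F : Finset (ℝ × ℝ))
    (hp : F.card.Prime)
    (hF : ∀ v ∈ F, ∀ w ∈ F, v ≠ w →
      Disjoint (interior (tr (par a b) v)) (interior (tr (par a b) w))) :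
    IsBody (⋃ v ∈ F, tr (par a b) v) ∧
    ((∃ T, Tiling (⋃ v ∈ F, tr (par a b) v) T) →
      ∃ T, Tiling (⋃ v ∈ F, tr (par a b) v) T ∧ Periodic T) ∧
    ∀ T, Tiling (⋃ v ∈ F, tr (par a b) v) T → ∀ v ∈ F, ∀ w ∈ F,
      tr (⋃ t ∈ T, tr (par a b) t) (F.card • (v - w)) = ⋃ t ∈ T, tr (par a b) t := by
  classical
  obtain ⟨e, he⟩ := exists_equiv hab
  have hpar := par_eq e he
  have htr : ∀ v, tr (par a b) v = e '' csq (e.symm v) := by
    intro v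
    have h1 : v = e (e.symm v) := (e.apply_symm_apply v).symm
    rw [hpar]
    conv_lhs => rw [h1]
    rw [tr_image, tr_csq, add_zero]
  obtain ⟨F', hF'⟩ : ∃ F' : Finset (ℝ × ℝ), F' = F.image e.symm := ⟨_, rfl⟩
  have hcard : F'.card = F.card := by
    rw [hF']
    exact Finset.card_image_of_injective F e.symm.injective
  have hC : (⋃ v ∈ F, tr (par a b) v) = e '' clus F' := by
    ext z
    unfold clus
    simp only [Set.mem_iUnion, exists_prop, Set.mem_image]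
    constructor
    · rintro ⟨v, hv, hz⟩
      rw [htr] at hz
      obtain ⟨x, hx, rfl⟩ := hz
      exact ⟨x, ⟨e.symm v, by rw [hF']; exact Finset.mem_image_of_mem _ hv, hx⟩, rfl⟩
    · rintro ⟨x, ⟨v', hv', hx⟩, rfl⟩
      rw [hF'] at hv'
      obtain ⟨v, hv, rfl⟩ := Finset.mem_image.1 hv'
      exact ⟨v, hv, by rw [htr]; exact ⟨x, hx, rfl⟩⟩
  have hF2 : ∀ v ∈ F', ∀ w ∈ F', v ≠ w → Disjoint (interior (csq v)) (interior (csq w)) := by
    intro v' hv' w' hw' hne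
    rw [hF'] at hv' hw'
    obtain ⟨v, hv, rfl⟩ := Finset.mem_image.1 hv'
    obtain ⟨w, hw, rfl⟩ := Finset.mem_image.1 hw'
    have h1 := hF v hv w hw fun h => hne (by rw [h])
    rw [htr, htr, interior_image, interior_image] at h1
    rw [Set.disjoint_left] at h1 ⊢
    intro z hz hz'
    exact h1 ⟨z, hz, rfl⟩ ⟨z, hz', rfl⟩
  have hback : ∀ T, Tiling (⋃ v ∈ F, tr (par a b) v) T → Tiling (clus F') (e.symm '' T) := by
    intro T hT
    have h1 := tiling_image e.symm hT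
    rw [hC] at h1
    have h2 : e.symm '' (e '' clus F') = clus F' := by
      rw [← Set.image_comp]
      have : (e.symm : (ℝ × ℝ) → (ℝ × ℝ)) ∘ e = id := funext fun x => e.symm_apply_apply x
      rw [this, Set.image_id]
    rwa [h2] at h1
  refine ⟨?_, ?_, ?_⟩
  · rw [hC]
    exact isBody_image e (isBody_clus F')
  · rintro ⟨T, hT⟩
    obtain ⟨T', h1, h2⟩ := squares (by rw [hcard]; exact hp) hF2 (hback T hT)
    exact ⟨e '' T', by rw [hC]; exact tiling_image e h1, periodic_image e h2⟩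
  · intro T hT
    have hper := EC_per (by rw [hcard]; exact hp) hF2 (hback T hT)
    rw [hcard] at hper
    have hU : (⋃ t ∈ T, tr (par a b) t) = e '' EC (e.symm '' T) := by
      ext z
      unfold EC
      simp only [Set.mem_iUnion, exists_prop, Set.mem_image]
      constructor
      · rintro ⟨v, hv, hz⟩
        rw [htr] at hz
        obtain ⟨x, hx, rfl⟩ := hz
        exact ⟨x, ⟨e.symm v, ⟨v, hv, rfl⟩, hx⟩, rfl⟩
      · rintro ⟨x, ⟨_, ⟨v, hv, rfl⟩, hx⟩, rfl⟩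
        exact ⟨v, hv, by rw [htr]; exact ⟨x, hx, rfl⟩⟩
    have hstep : ∀ v ∈ F, ∀ w ∈ F, ∀ z, z ∈ (⋃ t ∈ T, tr (par a b) t) →
        z + F.card • (v - w) ∈ ⋃ t ∈ T, tr (par a b) t := by
      intro v hv w hw z hz
      rw [hU] at hz ⊢
      obtain ⟨x, hx, rfl⟩ := hz
      refine ⟨x + F.card • (e.symm v - e.symm w), hper _ ?_ _ ?_ x hx, ?_⟩
      · rw [hF']; exact Finset.mem_image_of_mem _ hv
      · rw [hF']; exact Finset.mem_image_of_mem _ hw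
      · rw [map_add, map_nsmul, map_sub, e.apply_symm_apply, e.apply_symm_apply]
    intro v hv w hw
    ext z
    rw [mem_tr]
    constructor
    · intro h
      have h1 := hstep v hv w hw _ h
      rwa [sub_add_cancel] at h1
    · intro h
      have h1 := hstep w hw v hv _ h
      have h2 : z + F.card • (w - v) = z - F.card • (v - w) := by
        rw [← neg_sub v w, smul_neg, ← sub_eq_add_neg]
      rwa [h2] at h1

end Pool.Agent.PSQ
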