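import Mathlib

set_option autoImplicit false

/-!
# A periodic word whose windows occur in a given word
-/

namespace Pool.Agent.PSQ

theorem word {A : Type*} [Finite A] (a : ℤ → A) (M : ℕ) :
    ∃ (a' : ℤ → A) (N : ℕ), 0 < N ∧ (∀ n : ℤ, a' (n + N) = a' n) ∧
      ∀ n₀ : ℤ, ∃ m₀ : ℤ, ∀ d : ℤ, |d| ≤ M → a' (n₀ + d) = a (m₀ + d) := by
  obtain ⟨n, N, hN, hper⟩ : ∃ (n : ℤ) (N : ℕ), 0 < N ∧ ∀ s : ℕ, s < 2 * M + 1 →
      a (n + N + s) = a (n + s) := by
    obtain ⟨x, y, hxy, he⟩ := Finite.exists_ne_map_eq_of_infinite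
      (fun (m : ℕ) => fun i : Fin (2 * M + 1) => a ((m : ℤ) + (i : ℕ)))
    have key : ∀ x y : ℕ, x < y → (∀ i : Fin (2 * M + 1), a ((x : ℤ) + (i : ℕ)) =
        a ((y : ℤ) + (i : ℕ))) → ∃ (n : ℤ) (N : ℕ), 0 < N ∧ ∀ s : ℕ, s < 2 * M + 1 →
        a (n + N + s) = a (n + s) := by
      intro x y hxy he
      refine ⟨x, y - x, by omega, fun s hs => ?_⟩
      have h1 : (x : ℤ) + ((y - x : ℕ) : ℤ) = y := by omega
      rw [h1]
      exact (he ⟨s, hs⟩).symm
    rcases lt_or_gt_of_ne hxy with h | h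
    · exact key x y h fun i => congrFun he i
    · exact key y x h fun i => (congrFun he i).symm
  have hq : ∀ q : ℕ, q < N + (2 * M + 1) → a (n + q) = a (n + ((q % N : ℕ) : ℤ)) := by
    intro q
    induction q using Nat.strong_induction_on with
    | _ q ih =>
      intro hq
      rcases lt_or_ge q N with h | h
      · rw [Nat.mod_eq_of_lt h]
      · obtain ⟨s, rfl⟩ := Nat.exists_eq_add_of_le h
        have h1 := hper s (by omega)
        have h2 := ih s (by omega) (by omega)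
        rw [Nat.add_mod_left, ← h2, ← h1]
        push_cast
        rw [add_assoc]
  have hNz : (N : ℤ) ≠ 0 := by exact_mod_cast hN.ne'
  have hNp : (0 : ℤ) < N := by exact_mod_cast hN
  refine ⟨fun m => a (n + (m - n) % N), N, hN, fun m => ?_, fun n₀ => ?_⟩
  · have h1 : m + N - n = m - n + N := by ring
    show a (n + (m + N - n) % N) = a (n + (m - n) % N)
    rw [h1, Int.add_emod_right]
  · refine ⟨n + (n₀ - M - n) % N + M, fun d hd => ?_⟩
    show a (n + (n₀ + d - n) % N) = a (n + (n₀ - M - n) % N + M + d)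
    have hd' := abs_le.1 hd
    obtain ⟨r, hr⟩ := Int.eq_ofNat_of_zero_le (Int.emod_nonneg (n₀ - M - n) hNz)
    obtain ⟨s, hs⟩ := Int.eq_ofNat_of_zero_le (show 0 ≤ d + M by linarith [hd'.1])
    have hrN : (n₀ - M - n) % (N : ℤ) < N := Int.emod_lt_of_pos _ hNp
    have h1 : n₀ + d - n = (n₀ - M - n) + (d + M) := by ring
    have h2 : (n₀ + d - n) % (N : ℤ) = ((r + s : ℕ) : ℤ) % N := by
      rw [h1, ← Int.emod_add_emod, hr, hs]
      push_cast
      rfl
    have h3 : n + (n₀ - M - n) % N + M + d = n + ((r + s : ℕ) : ℤ) := by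
      have h4 : ((r + s : ℕ) : ℤ) = (r : ℤ) + s := by push_cast; rfl
      have h5 : (r : ℤ) = (n₀ - M - n) % N := hr.symm
      have h6 : (s : ℤ) = d + M := hs.symm
      rw [h4, h5, h6]
      ring
    rw [h2, h3]
    have h7 := hq (r + s) (by omega)
    rw [h7]
    push_cast
    rfl

end Pool.Agent.PSQ
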